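import Pool.Agent.FTN.Main
import Pool.Agent.FTN.FIN

/-! Fejes Toth's sum of angles on the spheres `S^2, ..., S^9`: the conjecture for all `N` divisible by `d + 1`, the conjectured bound up
to the additive constant `(pi / 2) r (d + 1 - r) / (d + 1)`, `r = N mod (d + 1)`, for all `N`, and the continuous version. -/

open Real MeasureTheory

namespace Pool.Agent.Results.MP_a01ab0_co.SphereTwoToNine

open Pool.Agent.FTA (Eu lineAngle energy PeriodicOrthonormal)

theorem result : ∀ d : ℕ, 2 ≤ d → d ≤ 9 →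
    (∀ (N : ℕ) (x y : Fin N → Eu d), (∀ i, ‖x i‖ = 1) → PeriodicOrthonormal y →
      energy x ≤ energy y + π / 2 * (((N % (d + 1) : ℕ) : ℝ) * ((d : ℝ) + 1 - ((N % (d + 1) : ℕ) : ℝ)) / ((d : ℝ) + 1))) ∧
    (∀ μ : Measure (Eu d), IsProbabilityMeasure μ → μ (Metric.sphere 0 1)ᶜ = 0 →
      ∀ e : Fin (d + 1) → Eu d, Orthonormal ℝ e →
        ∫ x, ∫ y, lineAngle x y ∂μ ∂μ ≤
          ∫ x, ∫ y, lineAngle x y ∂(((d : ENNReal) + 1)⁻¹ • ∑ i, Measure.dirac (e i))
            ∂(((d : ENNReal) + 1)⁻¹ • ∑ i, Measure.dirac (e i))) := by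
  intro d h2 h9
  have hW : Pool.Agent.FTN.WB (d + 1) := by
    interval_cases d
    · exact Pool.Agent.FTN.Main.wb3
    · exact Pool.Agent.FTN.Main.wb4
    · exact Pool.Agent.FTN.Main.wb5
    · exact Pool.Agent.FTN.Main.wb6
    · exact Pool.Agent.FTN.Main.wb7
    · exact Pool.Agent.FTN.Main.wb8
    · exact Pool.Agent.FTN.Main.wb9
    · exact Pool.Agent.FTN.Main.wb10
  refine ⟨fun N x y hx hy => ?_, fun μ hμ hs e he => ?_⟩
  · have h := Pool.Agent.FTN.sumn_proof (d + 1) (by omega) hW N x hx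
    refine Pool.Agent.FTN.FIN_.compare x y ?_ hy
    push_cast at h
    exact h
  · rw [Pool.Agent.FTN.FIN_.basis_integral e he]
    have h := Pool.Agent.FTN.measn_proof Pool.Agent.FTN.sumn_proof (d + 1) (by omega) hW μ hμ hs
    push_cast at h
    exact h

end Pool.Agent.Results.MP_a01ab0_co.SphereTwoToNine
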