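import Pool.Agent.H88FU.Fin

/-! Fejes Toth's sum of angles: the exact conjecture in every dimension `d ≥ 1` for all `N ≤ 2 (d + 1)`. -/

open Real

namespace Pool.Agent.Results.MP_a01ab0_co.TwiceDimension

open Pool.Agent.FTA (Eu lineAngle energy PeriodicOrthonormal)

theorem result : ∀ d N : ℕ, N ≤ 2 * (d + 1) → ∀ x y : Fin N → Eu d, (∀ i, ‖x i‖ = 1) →
    PeriodicOrthonormal y → energy x ≤ energy y := by
  intro d N hN x y hx hy
  rcases Nat.lt_or_ge (d + 1) N with h | h
  · obtain ⟨k, hk⟩ : ∃ k, N = d + 1 + k := ⟨N - (d + 1), by omega⟩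
    exact Pool.Agent.H88FU.energy_le_of_P x y hx hy (Pool.Agent.H88FU.P_all (d + 1) k) hk (by omega)
  · exact Pool.Agent.H88FU.energy_le_small x y hx hy h

end Pool.Agent.Results.MP_a01ab0_co.TwiceDimension
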